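import Pool.Agent.J4.H17.KE.Final
import Pool.Agent.J4.H17.FT.OddTup

/-!
# The Tate conjecture for Fermat varieties over finite fields whose degree has prime factors modulo which
# the characteristic generates a small subgroup

Let `p` be a prime, let `m` be prime to `p` and not divisible by four. Let `k` be a finite field of
characteristic `p` with `q` elements, `m ∣ q - 1`, and let `X` be the Fermat variety of degree `m` and even
dimension `n = 2 i - 2` over `k`, or one of its twists `c_0 x_0 ^ m + ... + c_{n+1} x_{n+1} ^ m = 0`. The
primitive `ℓ`-adic cohomology of `X` is the sum of lines `V b` indexed by the tuples `b` of `2 i` nonzero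
residues modulo `m` with sum zero, and the Frobenius acts on the twist of `V b` that can contain algebraic
classes by the product of the Gauss sums of the characters `θ ^ b_j` divided by `q ^ i`, up to a root of
unity (Weil); `θ` is a multiplicative character of `k` of order `m`. So the Tate classes of `X`, over all
finite extensions of `k`, are the vectors which are fixed by a power of an operator `φ` as in the theorem.

The theorem: let `K = n + 2` (`K = 2 (n + 2)` if `m` is even), and suppose that for every odd prime `r`
dividing `m` the subgroup generated by `p` and `-1` in the multiplicative group modulo `r` has an index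
greater than `K` (`LargeIndex`). There is no condition on the exponents of the primes in `m`, on the order of
`p` modulo `m`, or on the relations between the primes. Then all Tate classes are linear combinations of the
`v b` for tuples `b` such that

1. for some `N` prime to `p` the character `N * b` of degree `N * m` is generated by pairs `{a, -a}`, Tate
characters with four entries and standard characters of Aoki and Shioda;

2. if `m` is odd and the condition holds even modulo the exact powers of the primes dividing `m` (`FewPowers`;
for example, if `m` is squarefree), for every residue `a` as many entries of `b` are of the form `p ^ j * a` as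
of the form `- p ^ j * a`.

The Tate characters with four entries belong to Fermat surfaces, for which the conjecture is known, and the
standard characters to algebraic classes of Aoki and Shioda; by the inductive structure of Fermat varieties
(Shioda, Katsura) a generation gives algebraic cycles. So the Tate conjecture holds for the Fermat varieties of
these degrees in characteristic `p` and dimensions at most `n`. For given `p` and `n` the condition holds for
all `m` composed of the primes of an infinite set (of positive density, by Chebotarev), for example of the
primes `r` dividing `p ^ f - 1` and greater than `2 K f + 1` for some `f`. The order of `p` may be even while no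
power of `p` is `-1` modulo `m`: example: `p ≡ -1` modulo one large prime factor of `m` and `p ≡ 1` modulo
another one. It is the analogue in characteristic `p` of Shioda's theorem that the Hodge conjecture holds for
the Fermat varieties of dimension `n` whose degree has only prime factors greater than `n + 1`.

The proof. By Stickelberger's theorem (starting library) `b` is a Tate character, so that every odd
distribution on `ℤ / m` which is invariant under `p` has the sum zero over the entries of `b`. For every set `S`
of odd primes such that `-1` is not a power of `p` modulo all of them we show that the entries whose order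
has exactly the prime divisors in `S` are even in number; then the parity criterion of the starting library
gives 1. This is done by induction on `S` from above with test distributions supported on the residues whose
order is divisible by all primes in `S`: the condition on the index provides for every `r ∈ S` a residue
modulo `r` (a hole) which is avoided by all entries and their multiples by `± p ^ j`, and an alternating sum
over the subsets of `S` localises the distributions at one point and the holes. If `m` is even the
entries of even order are first replaced by entries of odd order.
-/

set_option autoImplicit false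

namespace Pool.Agent.Results.MP_021685_ag.FermatLargePrimes

open Pool.Agent.H916T Pool.Agent.J4.H17.FT Pool.Agent.J4.H17.KB Pool.Agent.J4.H17.KE

/-- After multiplication by some `N` prime to `p` the multiset `s` of residues modulo `m` is generated by
pairs, Tate characters with four entries and standard characters. -/
def GeneratedBySurfaces (p m : ℕ) (s : Multiset (ZMod m)) : Prop :=
  ∃ N : ℕ, 0 < N ∧ p.Coprime N ∧
    Generated (N * m)
      (fun t => SurfaceTate p (N * m) t ∨ ∃ q : ℕ, q.Prime ∧ q ∣ N * m ∧ Standard q (N * m) t)
      (s.map fun a => ((N * a.val : ℕ) : ZMod (N * m)))

open scoped Classical in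
/-- For every residue `a` as many members of `s` are of the form `p ^ j * a` as of the form
`- p ^ j * a`. -/
def Balanced (p m : ℕ) (s : Multiset (ZMod m)) : Prop :=
  ∀ a : ZMod m, Multiset.card (s.filter fun b => ∃ j : ℕ, b = (p : ZMod m) ^ j * a) =
    Multiset.card (s.filter fun b => ∃ j : ℕ, b = -((p : ZMod m) ^ j * a))

/-- **The Tate conjecture for Fermat varieties over finite fields, large index.** -/
theorem result (p m i K : ℕ) [Fact p.Prime] [NeZero m] (hi : 0 < i) (h4 : ¬ 4 ∣ m)
    (hK : K = if 2 ∣ m then 4 * i else 2 * i) (hI : LargeIndex p m K)
    (k : Type) [Field k] [Fintype k]
    [CharP k p] (hmk : m ∣ Fintype.card k - 1) (θ : MulChar k ℂ) (hθ : orderOf θ = m)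
    (ψ : AddChar k ℂ) (hψ : ψ ≠ 1)
    (H : Type) [AddCommGroup H] [Module ℂ H] (v : Module.Basis (Tuple (2 * i) m) ℂ H)
    (φ : H →ₗ[ℂ] H) (ε : Tuple (2 * i) m → ℂ) (hε : ∀ b, IsRootOfUnity (ε b))
    (hφ : ∀ b, φ (v b) = (ε b * gaussProduct θ ψ b) • v b) :
    ∀ (x : H) (e : ℕ), 0 < e → (φ ^ e) x = x →
      x ∈ Submodule.span ℂ (v '' {b | GeneratedBySurfaces p m b.entries ∧
        (Odd m → FewPowers p m K → Balanced p m b.entries)}) := by
  classical
  intro x e he hx
  have hm : m ≠ 0 := NeZero.ne m
  have hp : p.Prime := Fact.out
  have hpm : p.Coprime m := coprime_of_dvd (k := k) hmk
  refine Submodule.span_mono (Set.image_mono ?_) (fixed_mem v φ _ hφ e hx)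
  intro b hb
  have hs := tate_of_tuple hmk θ hθ ψ hψ b (ε b) (hε b) ⟨e, he, hb⟩
  have hcard : Multiset.card b.entries = 2 * i := by
    rw [Tuple.entries, Multiset.card_map]; simp
  have hne : b.entries ≠ 0 := by
    intro h0
    rw [h0, Multiset.card_zero] at hcard
    omega
  have hK2 : (if 2 ∣ m then 2 * (2 * i) else 2 * i) = K := by
    rw [hK]
    split_ifs
    · ring
    · rfl
  refine ⟨?_, ?_⟩
  · obtain ⟨N, hN, hpN, H1⟩ := Pool.Agent.J4.H17.KE.generated hp hm hpm h4 (K := 2 * i)
      (by rw [hK2]; exact hI) hs hne hcard.le
    exact ⟨N, hN, hpN, H1 _ rfl⟩
  · intro hodd hF a
    have h2 : ¬ 2 ∣ m := fun h => Nat.not_even_iff_odd.mpr hodd (even_iff_two_dvd.mpr h)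
    rw [if_neg h2] at hK2
    have hR : Pool.Agent.H916Z.Rel0 p b.entries := fun t => hs.W_sum hpm t
    have h3 := count_eq hpm h2 hR hcard.le
      (by rw [hK2]; exact hF) a
      (fun c => ∃ j : ℕ, c = (p : ZMod m) ^ j * a) (fun c => ∃ j : ℕ, c = -((p : ZMod m) ^ j * a))
      (fun _ => Iff.rfl) (fun _ => Iff.rfl)
    rw [Multiset.countP_eq_card_filter, Multiset.countP_eq_card_filter] at h3
    convert h3

end Pool.Agent.Results.MP_021685_ag.FermatLargePrimes
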