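import Pool.Agent.J4.H54.TV.OutMain

/-!
# The Tate conjecture for products of an arbitrary variety with elliptic curves: finitely many cases

Let `Z` be an arbitrary smooth projective variety over a number field `L` and let `m` be a bound for the
level of its cohomology: the Hodge numbers `h^(p,q)(Z)` vanish for `|p - q| > m`, for instance
`m = dim Z`. Let `X i`, `i ∈ ι`, be elliptic curves over `L`, one from each isogeny class over the
algebraic closure, and consider ALL products `X i₁ × ⋯ × X iₙ × Z` (`n` is arbitrary, repetitions are
allowed). We show that the Tate conjecture for all these products is decided by FINITELY many of them,
of bounded dimension: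

* **There is a set `A` of at most `b(Z) = dim H(Z)` lists of curves, all of them with at most `m ^ 2`
  members and even with `n₀ + √(∑ k i ^ 2) ≤ m`, such that all Tate classes on all the products are
  obtained** (by linear combinations, cup products and pull-backs) **from the Tate classes on the
  surfaces `X i × X i` and on the products `X i₁ × ⋯ × X iᵣ × Z` with `(i₁, …, iᵣ) ∈ A`.** Here `n₀` is the
  number of the members of the list without complex multiplication and the `k i` are the multiplicities
  of the curves with complex multiplication.
* So the Tate conjecture for all the products, over all finite extensions of `L` and in all
  codimensions, follows from the Tate conjecture for the `X i × X i` (which is the theorem of Faltings)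
  and for at most `b(Z)` products `X i₁ × ⋯ × X iᵣ × Z`, of dimension at most `m ^ 2 + dim Z`.

*Example: `m = 1`* (`Z` a curve of any genus, a cubic threefold, …). Only products `X i × Z` with one
curve remain. For a curve `Z` they are surfaces and their Tate classes are algebraic by the theorem of
Faltings. So the Tate conjecture holds in all codimensions for `C × E₁ × ⋯ × Eₙ`, for every curve `C` and
all elliptic curves `E₁, …, Eₙ` over number fields.

*Example: `m = 2`* (all surfaces, cubic fourfolds, …). Only the `X i × X j × Z`, and
`X₁ × X₂ × X₃ × Z` and `X₁ × ⋯ × X₄ × Z` with non-isogenous curves with complex multiplication, remain,
and at most `b(Z)` of them.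

The theorem applies as well to finitely generated fields, and to ordinary elliptic curves over finite
fields (there `m` is a bound for `|2 λ - n|`, `λ` a slope of the Frobenius on `H^n(Z)`, for instance
`m = 0` for supersingular `Z`).

## The formal statement

`W` is a Weil cohomology theory with coefficients in a field isomorphic to `ℂ` (`l`-adic cohomology of
varieties over the algebraic closure of `L`, with coefficients in the algebraic closure of `ℚ_l`), `Γ`
is the Galois group of `L`, and `χ` is the inverse of the cyclotomic character (Tate twists are
suppressed). `G` is a class of varieties with an action of `Γ` on the cohomology with the formal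
properties of the Galois action (`GaloisClass`), for instance all varieties which come from `L`; the
`X i` and `Z` are members of `G`. `IsEC`: the `X i` are curves of genus one, and `ρ i` is the matrix of the
action of `Γ` on `H¹(X i)` in a symplectic basis. `Prods X Z L Y`: `Y` is the product `X_L × Z` of the
members `X i` of the list `L` and `Z`. `TateConj` is the Tate conjecture over all finite extensions, in
all codimensions. `Obt`: a class is obtained from the Tate classes on the varieties in `Base` if it is
in the smallest system of subalgebras of all `H(Y)` which contains them and is stable under all
pull-backs. The assumptions are:

* `IsSys`: each `X i` either has complex multiplication, and then two lines of `H¹(X i)` are stable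
  under a subgroup of finite index, or not, and then no line is (Serre, Faltings); two different `X i` are
  not isogenous, and there are no nonzero maps `H¹(X i) → H¹(X j)` which are equivariant under a subgroup
  of finite index (Faltings).
* `HasPlaces`: for every finite set `F` of curves there is a place, of a finite extension of `L`,
  where `Z` has good reduction and the curves in `F` have good ordinary reduction (for the curves with
  complex multiplication this is so at the places of degree one if their endomorphisms are defined over
  the extension, for the other ones at almost all places of degree one, by Serre), and `φ` is a
  Frobenius element. The condition on the eigenvalues of `φ` on `H(Z)` is the theorem of Deligne and, for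
  the divisibility by `q ^ ((n - m) / 2)`, the theorem of Mazur (for `m = dim Z` it follows from Poincaré
  duality and the integrality of the eigenvalues).

## The proof

It does not use the algebraic groups of the representations; everything is proved from the
definitions. By the Künneth formula a Tate class on a product is a combination of products of classes
of points and of classes of Tate maps, the multilinear maps `h` from the product of some `H¹(X i)` to
`H(Z)` with `h (g v) = χ(g) ^ j g h (v)` for `g` in a subgroup of finite index. Let `𝔤` be the space of all
families of operators, on the `H¹(X i)` and on `H(Z)`, which act on all Tate maps by derivations. It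
contains, for every homomorphism `θ : ℂˣ → ℂ` with `θ q = 0`, the operator which is `θ α` on the
generalized eigenspaces of `φ` for `α`. We take `θ = 2 v (σ α) - log |α|²` (normalised by `q`) for a
`p`-adic absolute value `v` and an automorphism `σ` of `ℂ`. This operator has the eigenvalues `1, -1` on
`H¹(X i)`, by ordinarity, and eigenvalues in `[-m, m]` on `H(Z)`. It follows that `𝔤` is the full `sl₂` on
the curves without complex multiplication, and by the lemma of Goursat it contains their product. By
the orthogonality of the quadratic characters of the imaginary quadratic fields the `σ` give an
operator which is zero on all curves but one. A Tate map `h` which is not in the span of the products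
with pairings can be taken symmetric and, for the curves with complex multiplication, pure; its values
at suitable eigenvectors are not zero and are joint eigenvectors of operators in `𝔤` on `H(Z)`. The
eigenvalues are the numbers `± n₀ ± k 1 ± k 2 ⋯`, with the signs of the curves with complex
multiplication changed by the quadratic characters, and must be in `[-m, m]`; the mean value of their
squares gives `n₀ + √(∑ k i ^ 2) ≤ m`. For different multisets the systems of eigenvalues are different
and the eigenvectors are linearly independent in `H(Z)`.

(Parts of the Lean files are due to helper12, helper40, helper51, helper67, helper91 and helper97. The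
analogue for the Hodge conjecture, with another proof, is helper21's `MP_e12fcd_ag.EllipticProducts`.)
-/

open CategoryTheory AlgebraicGeometry

universe u

namespace Pool.Agent.Results.MP_021685_ag.TateConjectureEllipticProducts

open Pool.Agent.H914 Pool.Agent.TH125.Gal Pool.Agent.J4.H54.TV.Out

variable {k : Type u} [Field k] {𝒱 : VarClass k} {ops : CycleOps 𝒱}

/-- **Finiteness for the products of a variety with elliptic curves.** -/
theorem result (W : WeilCohomology.{u, 0} ops) (e : CoefIso W) {Γ : Type} [Group Γ]
    {χ : Char W Γ} {G : Set (GVar W Γ)} (hG : GaloisClass χ G)
    -- the curves, and the arbitrary variety `Z`
    {ι : Type} {X : ι → GVar W Γ} (hX : ∀ i, X i ∈ G) {Z : GVar W Γ} (hZ : Z ∈ G)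
    {ρ : ι → Rep W Γ} (hE : ∀ i, IsEC (X i) (ρ i)) (hs : IsSys χ ρ) {m : ℕ}
    (hp : HasPlaces e χ ρ Z m) :
    ∃ A : Finset (List ι), A.card ≤ betti Z ∧ (∀ l ∈ A, SmallList ρ m l ∧ l.length ≤ m ^ 2) ∧
      (∀ L Y, Prods X Z L Y → ∀ j c, IsTate χ Y j c → Obt χ (Base X Z A) Y.X c) ∧
      ((∀ Y, Base X Z A Y → TateConj χ Y) → ∀ L Y, Prods X Z L Y → TateConj χ Y) := by
  obtain ⟨A, h1, h2, h3, h4⟩ := mainOut W e hG hX hZ hE hs hp
  exact ⟨A, h1, h2, h3, h4⟩

end Pool.Agent.Results.MP_021685_ag.TateConjectureEllipticProducts
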