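import Pool.Agent.J4.H26.Et.Gal

/-!
# The Tate conjecture for the Fermat varieties of dimension at most six over number fields

Let `F` be a number field or a finite field, let `X` be the Fermat variety
`x_0 ^ m + ... + x_(n+1) ^ m = 0` over `F` (or a diagonal hypersurface), and let `V` be its primitive
cohomology `H^n(n / 2)`, `n = 2 * i - 2`, or the corresponding part of the cohomology of a product of
Fermat varieties of degree `m`, with coefficients in an algebraic closure of `ℚ_ℓ`, which we identify
with `ℂ`. Over the field of the `m`-th roots of unity `V` is the sum of lines `W l` indexed by tuples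
`a l` of `2 * i` nonzero residues modulo `m`, and for a place with residue field `k` of `q` elements,
`m ∣ q - 1`, the geometric Frobenius element `γ` acts on the line by the product of the Gauss sums
`g (θ ^ (a l j))`, divided by `q ^ i`, up to a root of unity (Weil). The same holds for the tensor products
of `2 * i` lines of the first cohomology of the Artin-Schreier curves `y ^ q - y = x ^ m` over the field
`k`, where the tuple `a l` is arbitrary (Davenport, Hasse).

The theorem: let `2 * i ≤ K`, let the degree `m` satisfy `PairsKnown K m`, and let `p` be congruent to one
modulo `m`. Every vector `x` of `V` which is fixed by a subgroup of finite index of the Galois group `Γ`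
lies in the sum of the lines `W l` for which `a l` is `Known`: its entries form a Hodge character which is
generated by pairs, the standard characters of Aoki and Shioda, the Hodge characters with four entries
(Fermat surfaces) and the curve products. Only one Frobenius element `γ` is used.

The lines of the known tuples are algebraic (Shioda, Katsura, Aoki, Lefschetz, Bloch, Srinivas; see
`FermatSmallDimension`). For `K = 8` the condition `PairsKnown` says that `m` is odd or not divisible by one
of `68, 110, 130, 138, 170, 174, 186, 420`. So the Tate conjecture in all codimensions holds for the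
Fermat varieties and the diagonal hypersurfaces of dimension at most six and for the products of two
Fermat surfaces of degree `m` over all number fields (there are infinitely many places of degree
one over primes congruent to one modulo `m`) and over all finite fields of characteristic `p` congruent
to one modulo `m`, and for products of at most eight Artin-Schreier curves `y ^ q - y = x ^ m` over these
finite fields; in particular in all odd degrees.

The proof. Let `γ ^ r` fix `x`. As `V` is the sum of eigenspaces of `γ ^ r`, the vector `x` is in the sum of
the lines on which `γ ^ r` is the identity. There the product of the Gauss sums has a power which is the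
same power of `q ^ i`; as `p` is congruent to one modulo `m`, Stickelberger's theorem (starting library)
gives that the entries form a Hodge character, and this has at most `K` entries.
-/

namespace Pool.Agent.Results.MP_021685_ag.TateSmallDimension

open Pool.Agent.J4.H26.Ew Pool.Agent.J4.H26.Et

theorem result (K m i : ℕ) (hi : 0 < i) (hiK : 2 * i ≤ K) [NeZero m] (hK : PairsKnown K m)
    (k : Type) [Field k] [Fintype k] (p : ℕ) [Fact p.Prime] [CharP k p]
    (hp1 : p % m = 1 % m) (hmk : m ∣ Fintype.card k - 1) (θ : MulChar k ℂ) (hθ : orderOf θ = m)
    (V : Type) [AddCommGroup V] [Module ℂ V] (Γ : Type) [Group Γ] (ρ : Representation ℂ Γ V)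
    (ι : Type) (W : ι → Submodule ℂ V) (hV : ⨆ l, W l = ⊤) (a : ι → Fin (2 * i) → ZMod m)
    (ha : ∀ l j, a l j ≠ 0) (γ : Γ)
    (hγ : ∀ l, ∃ ψ : Fin (2 * i) → AddChar k ℂ, (∀ j, ψ j ≠ 1) ∧
      ∃ ζ : ℂ, (∃ e, 0 < e ∧ ζ ^ e = 1) ∧ ∀ v ∈ W l, ρ γ v =
        (ζ * (∏ j, gaussSum (θ ^ (a l j).val) (ψ j)) / (Fintype.card k : ℂ) ^ i) • v)
    (x : V) (hx : ∃ H : Subgroup Γ, H.FiniteIndex ∧ ∀ h ∈ H, ρ h x = x) :
    x ∈ ⨆ (l : ι) (_ : Known (a l)), W l :=
  galois hi hiK hK hp1 hmk θ hθ ρ W hV a ha γ hγ hx

end Pool.Agent.Results.MP_021685_ag.TateSmallDimension
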